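import Mathlib
import Pool.Agent.Lib.MP_af06f6_co.Limit

open Set Metric Pool.Agent.Lib.MP_af06f6_co

namespace Pool.Agent.Lib.MP_af06f6_co.Old.UpperBound

/-- Upper bounds for `λ = inf {L(P) : P ∈ 𝒞}` (the sphere is centred at the origin). -/
theorem result :
    (∀ w : ℝ, 1 < w → sInf (totalLength '' cageClass 0) ≤
      2 * w + 18 * w / (w ^ 2 + 3) + 6 * w / (w ^ 2 - 1) + 12 * w / (w ^ 2 + 7)) ∧
    (∃ P ∈ cageClass 0, totalLength P < 14.965862) ∧
    sInf (totalLength '' cageClass 0) < 14.965862 ∧ (15.588 : ℝ) < 9 * √3 := by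
  have hnum : (2 * (338 / 125) + 18 * (338 / 125) / ((338 / 125) ^ 2 + 3) +
      6 * (338 / 125) / ((338 / 125) ^ 2 - 1) + 12 * (338 / 125) / ((338 / 125) ^ 2 + 7) : ℝ)
      < 14.965862 := by norm_num
  refine ⟨Inst.sInf_le, ?_, ?_, ?_⟩
  · exact Inst.exists_poly (338 / 125) (by norm_num) _ hnum
  · exact lt_of_le_of_lt (Inst.sInf_le (338 / 125) (by norm_num)) hnum
  · have h : (1.732 : ℝ) < √3 := by
      rw [Real.lt_sqrt (by norm_num)]; norm_num
    linarith

end Pool.Agent.Lib.MP_af06f6_co.Old.UpperBound
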